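import Pool.Agent.Helper83.LN6.CDefs
import Pool.Agent.Helper26.LN6.Defs

/-!
# LN6-V (MP_730da0_ag): assembly of Q1 and Q2, interface

`SBridge k` is the statement of part (IV) (a coloured system gives a winding system with the axioms), `SAbs k` the
statement of part (III).  `all_eq`: if all colours have `n ≥ 2` points, `n ≠ k`, then all `s_i` are equal.
-/

namespace Pool.Agent.Helper2.LN6

open Pool.Agent.Helper2.LN Pool.Agent.Helper83.LN6

/-- part (IV): the winding system of a coloured system. -/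
def SBridge (k : ℕ) : Prop := ∀ Z : CSys k, (∃ a b, Z.Gp a b) →
  ∃ (Γ : Type) (_ : Group Γ) (_ : MulAction Γ Z.B) (W : LN6.WSys k Γ Z.B) (b : ℝ),
    W.Ax b ∧ (∀ i, i + 1 < k → ∀ a, W.s i • a = Z.S.s i a) ∧ ∀ a c, W.R a c ↔ Z.Same a c

/-- part (III): the abstract theorem. -/
def SAbs (k : ℕ) : Prop := ∀ (Γ F : Type) [Group Γ] [MulAction Γ F] [Finite F] (W : LN6.WSys k Γ F) (b : ℝ),
  W.Ax b → (∀ x, Nat.card {y : F // W.R x y} = k) ∨ (∀ i, i + 1 < k → ∀ x : F, W.s i • x = W.s 0 • x)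

theorem all_eq {k : ℕ} (hB : SBridge k) (hA : SAbs k) (Z : CSys k) (n : ℕ) (hn : 2 ≤ n) (hnk : n ≠ k)
    (hcard : ∀ a : Z.B, Nat.card {b : Z.B // Z.Same a b} = n) (i : ℕ) (hi : i + 1 < k) :
    Z.S.s i = Z.S.s 0 := by
  refine Equiv.ext fun a => ?_
  have hfin : Finite Z.B := Z.fin
  have hgp : ∃ a b, Z.Gp a b := by
    have h1 : 1 < Nat.card {b : Z.B // Z.Same a b} := by rw [hcard a]; omega
    have : Finite {b : Z.B // Z.Same a b} := inferInstance
    rw [Finite.one_lt_card_iff_nontrivial] at h1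
    obtain ⟨b, hb⟩ := exists_ne (⟨a, rfl⟩ : {b : Z.B // Z.Same a b})
    exact ⟨a, b, b.2, fun h => hb (Subtype.ext h.symm)⟩
  obtain ⟨Γ, hG, hM, W, b, hW, hs, hR⟩ := hB Z hgp
  rcases hA Γ Z.B W b hW with h1 | h1
  · exfalso
    apply hnk
    rw [← h1 a, ← hcard a]
    simp only [hR]
  · have h0 : 0 + 1 < k := by omega
    rw [← hs i hi a, ← hs 0 h0 a]
    exact h1 i hi a

end Pool.Agent.Helper2.LN6
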