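import Pool.Agent.Helper2.LN.RootSecK
import Pool.Agent.Helper2.LN.GhatConn
import Pool.Agent.Helper2.LN.LogLemma
import Pool.Agent.Helper93.LN.FHom
import Pool.Agent.Helper93.L2.RootSecH

/-!
# LN6-V1 (MP_730da0_ag): END of Q1: if all `s_i` are equal on the roots of `f`, then `f` is splittable
-/

namespace Pool.Agent.Helper2.LN6

open Pool.Agent.Helper2.LN Pool.Agent.Helper93.LN Pool.Agent.Helper93.L2

theorem splittable_of_all_eq {k n : ℕ} (hk : 5 ≤ k) (hn : 3 ≤ n) (f : C(G0 k, G0 n)) (hf : Holo f)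
    (S : Sys k ℂ) (hS : S.F = rootF f) (hs : ∀ i, i + 1 < k → S.s i = S.s 0) : Splittable f := by
  have hk2 : 2 ≤ k := by omega
  have hbase : base k ∈ Conf k := Gen_subset_Conf k (Ord_subset_Gen k (base_mem_Ord k))
  obtain ⟨F, hF, hfF⟩ := hf
  obtain ⟨R⟩ := exists_rootSec_of_eq hk hn f F hfF S hS hs
  have hne : (Ghat k).Nonempty :=
    ⟨_, Ghat_of_Y hk2 (base k, Complex.log (Dsc (base k)))
      ⟨hbase, Complex.exp_log ((Dsc_ne_zero _).2 hbase)⟩⟩
  exact splittable_of_rootSec hk2 hn hne (Ghat_preconnected hk2) (logProp (by omega)) f hF hfF R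

end Pool.Agent.Helper2.LN6
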