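import Pool.Agent.Helper2.LN6.Main
import Pool.Agent.Helper37.LN6.Abs
import Pool.Agent.Helper50.LN6.Adapt
import Pool.Agent.Helper50.LN6.CQ2
import Pool.Agent.Helper93.L6.Brd

/-!
# LN6-V (MP_730da0_ag): the two final theorems
-/

namespace Pool.Agent.Helper2.LN6

open Pool.Agent.Helper2.LN Pool.Agent.Helper50.LN6

theorem q1_final {k n : ℕ} (hk : 4 < k) (hn : 3 ≤ n) (hnk : n ≠ k) (f : C(G0 k, G0 n)) (hf : Holo f) :
    Splittable f :=
  q1_of (Pool.Agent.Helper93.L6.bridge hk) (Pool.Agent.Helper37.LN6M.sAbs k) (sq1 hk hn) hk hn hnk f hf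

theorem q2_final {k n : ℕ} (hk : 4 < k) (hn : 3 ≤ n) (hnk : n ≠ k) (f : SG k → SG n) (hf : HoloSG f)
    (x y : SG k) : f x = f y :=
  q2_of (Pool.Agent.Helper93.L6.bridge hk) (Pool.Agent.Helper37.LN6M.sAbs k) (sq2 hk hn) (send2 hk hn)
    (by omega) hnk f hf x y

end Pool.Agent.Helper2.LN6
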