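import Pool.Agent.Helper2.LN6.Core
import Pool.Agent.Helper2.LN6.EndQ1
import Pool.Agent.Helper50.LN6.QDefs

/-!
# LN6-V (MP_730da0_ag): the two final theorems from the statements of the parts

`SQ1 k n`: the coloured system of a holomorphic `f : G_k^0 → G_n^0`.  `SQ2 k n`: the coloured system of a holomorphic
`f : SG_k → SG_n`.  `SEnd2 k n`: if all `s_i` of this system are equal, then `f` is constant.
-/

namespace Pool.Agent.Helper2.LN6

open Pool.Agent.Helper2.LN Pool.Agent.Helper83.LN6 Pool.Agent.Helper50.LN6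

def SQ1 (k n : ℕ) : Prop := ∀ f : C(G0 k, G0 n), Holo f → ∃ (Z : CSys k) (S : Sys k ℂ), S.F = rootF f ∧
  (∀ a : Z.B, Nat.card {b : Z.B // Z.Same a b} = n) ∧
  ((∀ i, i + 1 < k → Z.S.s i = Z.S.s 0) → ∀ i, i + 1 < k → S.s i = S.s 0)

def SQ2 (k n : ℕ) : Prop := ∀ f : SG k → SG n, HoloSG f → ∃ Z : CSys k, Z.S.F = rootQ f ∧
  (∀ a : Z.B, Nat.card {b : Z.B // Z.Same a b} = n)

def SEnd2 (k n : ℕ) : Prop := ∀ f : SG k → SG n, HoloSG f → ∀ S : Sys k (ℂ × ℂ), S.F = rootQ f →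
  (∀ i, i + 1 < k → S.s i = S.s 0) → ∀ x y, f x = f y

theorem q1_of {k n : ℕ} (hB : SBridge k) (hA : SAbs k) (h1 : SQ1 k n) (hk : 5 ≤ k) (hn : 3 ≤ n) (hnk : n ≠ k)
    (f : C(G0 k, G0 n)) (hf : Holo f) : Splittable f := by
  obtain ⟨Z, S, hS, hcard, hs⟩ := h1 f hf
  exact splittable_of_all_eq hk hn f hf S hS
    (hs fun i hi => all_eq hB hA Z n (by omega) hnk hcard i hi)

theorem q2_of {k n : ℕ} (hB : SBridge k) (hA : SAbs k) (h1 : SQ2 k n) (h2 : SEnd2 k n) (hn : 2 ≤ n) (hnk : n ≠ k)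
    (f : SG k → SG n) (hf : HoloSG f) (x y : SG k) : f x = f y := by
  obtain ⟨Z, hZ, hcard⟩ := h1 f hf
  exact h2 f hf Z.S hZ (fun i hi => all_eq hB hA Z n (by omega) hnk hcard i hi) x y

end Pool.Agent.Helper2.LN6
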